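import Pool.Agent.H78.UN2.Defs

/-!
# Semantic derivations with unate lines and little persistent memory: definitions
-/

namespace Pool.Agent.H79.UP

open Finset Pool.Agent.H78.UN

/-- A semantic dag-like derivation from the CNF formula `F` with `S` lines. Here `Z` is a set of
variables and `σ` an assignment.

* `A v` is the set of the assignments which falsify line `v`; line `v` depends only on the
  variables in `W v`.
* Clause part: for `x ∈ L v` the literal of the variable `x ∈ Z` which is true under `σ` is one of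
  the disjuncts of line `v`: every assignment which falsifies line `v` differs from `σ` at `x`.
* In the other variables of `W v` the line is monotone: if `z` falsifies the line, then so does
  every `z'` which is obtained from `z` by replacing the values at some variables of `W v \ L v`
  by those of `o v`, and by changing the values of variables outside `W v` in any way. For the
  variables in `Z`, these values are those of `σ`.
* `E v` is a set of assignments which are ignored when line `v` is inferred (brute force).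
* `P v` is the set of the premises of line `v`: at most `B` earlier lines (every line can be used
  many times).
* Every line either follows from at most `q` clauses of `F`, or it follows from its premises.
* Little persistent memory: if `u 0, …, u D` are consecutive lines of a path from a line to
  one of its premises, then at most `s` variables belong to all of the sets
  `W (u i) \ L (u i)`, `i = 0, …, D`. -/
structure PDer {V : Type} [DecidableEq V] (F : Finset (Clause V)) (Z : Finset V) (σ : V → Bool)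
    (B q s D S : ℕ) where
  A : Fin S → Set (V → Bool)
  W : Fin S → Finset V
  L : Fin S → Finset V
  o : Fin S → V → Bool
  lit : ∀ v, ∀ x ∈ L v, x ∈ Z ∧ ∀ z ∈ A v, z x ≠ σ x
  unate : ∀ v, ∀ z ∈ A v, ∀ z' : V → Bool,
    (∀ x ∈ W v, z' x = z x ∨ (x ∉ L v ∧ z' x = o v x)) → z' ∈ A v
  orient : ∀ v, ∀ x ∈ W v, x ∈ Z → x ∉ L v → o v x = σ x
  E : Fin S → Finset (V → Bool)
  P : Fin S → Finset (Fin S)
  prem : ∀ v, (P v).card ≤ B ∧ ∀ a ∈ P v, a < v
  rule : ∀ v,
    (∃ Q : Finset (Clause V), Q ⊆ F ∧ Q.card ≤ q ∧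
      ∀ z ∈ A v, z ∉ E v → ∃ C ∈ Q, Falsified C z) ∨
    (∀ z ∈ A v, z ∉ E v → ∃ a ∈ P v, z ∈ A a)
  pers : ∀ u : ℕ → Fin S, (∀ i < D, u (i + 1) ∈ P (u i)) →
    ∀ X : Finset V, (∀ i ≤ D, X ⊆ W (u i) \ L (u i)) → X.card ≤ s

/-- The cost of a derivation: the number of lines plus the number of assignments treated by brute
force. -/
def PDer.cost {V : Type} [DecidableEq V] {F : Finset (Clause V)} {Z : Finset V} {σ : V → Bool}
    {B q s D S : ℕ} (R : PDer F Z σ B q s D S) : ℕ := S + ∑ v, (R.E v).card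

/-- The variables of a line, together with `Z`. -/
def PDer.wt {V : Type} [DecidableEq V] {F : Finset (Clause V)} {Z : Finset V} {σ : V → Bool}
    {B q s D S : ℕ} (R : PDer F Z σ B q s D S) : Fin S → Finset V := fun v => R.W v ∪ Z

/-- The orientation of a line. -/
def PDer.ot {V : Type} [DecidableEq V] {F : Finset (Clause V)} {Z : Finset V} {σ : V → Bool}
    {B q s D S : ℕ} (R : PDer F Z σ B q s D S) : Fin S → V → Bool := fun v x =>
  if x ∈ R.L v then !(σ x) else if x ∈ Z then σ x else R.o v x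

/-- The memory of a line. -/
def PDer.mm {V : Type} [DecidableEq V] {F : Finset (Clause V)} {Z : Finset V} {σ : V → Bool}
    {B q s D S : ℕ} (R : PDer F Z σ B q s D S) : Fin S → Finset V := fun v => R.W v \ R.L v

/-- The properties of the lines which are used by the adversary. -/
structure Lines {V : Type} [DecidableEq V] {S : ℕ} (A : Fin S → Set (V → Bool))
    (W : Fin S → Finset V) (o : Fin S → V → Bool) (m : Fin S → Finset V) (Z : Finset V)
    (σ : V → Bool) : Prop where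
  uni : ∀ v, ∀ z ∈ A v, ∀ z' : V → Bool, (∀ x ∈ W v, z' x = z x ∨ z' x = o v x) → z' ∈ A v
  res : ∀ v, ∀ z ∈ A v, ∀ z' : V → Bool,
    (∀ x, z' x ≠ z x → x ∉ m v ∧ (x ∈ Z → z x = σ x)) → z' ∈ A v
  dir : ∀ v, ∀ z ∈ A v, ∀ x ∈ Z, z x = σ x → x ∈ W v ∧ o v x = σ x

theorem PDer.lines {V : Type} [DecidableEq V] {F : Finset (Clause V)} {Z : Finset V}
    {σ : V → Bool} {B q s D S : ℕ} (R : PDer F Z σ B q s D S) :
    Lines R.A R.wt R.ot R.mm Z σ := by
  refine ⟨?_, ?_, ?_⟩
  · intro v z hz z' h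
    refine R.unate v z hz z' fun x hx => ?_
    have h1 := h x (Finset.mem_union_left _ hx)
    unfold PDer.ot at h1
    by_cases hL : x ∈ R.L v
    · rw [if_pos hL] at h1
      left
      rcases h1 with h1 | h1
      · exact h1
      · have h2 := (R.lit v x hL).2 z hz
        rw [h1]
        revert h2
        cases z x <;> cases σ x <;> simp
    · rw [if_neg hL] at h1
      rcases h1 with h1 | h1
      · exact Or.inl h1
      · right
        refine ⟨hL, ?_⟩
        by_cases hZ : x ∈ Z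
        · rw [if_pos hZ] at h1
          rw [h1, R.orient v x hx hZ hL]
        · rw [if_neg hZ] at h1
          exact h1
  · intro v z hz z' h
    refine R.unate v z hz z' fun x hx => Or.inl ?_
    by_contra hne
    obtain ⟨h1, h2⟩ := h x hne
    unfold PDer.mm at h1
    rw [Finset.mem_sdiff, not_and, not_not] at h1
    have hL := h1 hx
    have h3 := R.lit v x hL
    exact h3.2 z hz (h2 h3.1)
  · intro v z hz x hx hzx
    refine ⟨Finset.mem_union_right _ hx, ?_⟩
    unfold PDer.ot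
    rw [if_neg (fun hL => (R.lit v x hL).2 z hz hzx), if_pos hx]

section
variable {V : Type} [DecidableEq V] {M S : ℕ}

/-- The supports, enlarged by `Fs`. -/
def CW (Fs : Finset V) (W : Fin S → Finset V) : Fin S → Finset V := fun u => W u ∪ Fs

/-- The orientations, replaced by `zs` on `Fs`. -/
def co (Fs : Finset V) (zs : V → Bool) (o : Fin S → V → Bool) : Fin S → V → Bool :=
  fun u x => if x ∈ Fs then zs x else o u x

/-- No phase of length at most `t` which starts with at most `f` flipped values exposes `p` or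
more constraints. -/
def GoodP (sc : Fin M → Finset V) (r p t f : ℕ) (W : Fin S → Finset V)
    (o : Fin S → V → Bool) (P : Fin S → Finset (Fin S)) (zs : V → Bool) : Prop :=
  ∀ Fs : Finset V, Fs.card ≤ f → ∀ v0, ∀ j ≤ t, ∀ y ∈ PS P v0 j, ∀ J,
    Cov sc r (CW Fs W) (co Fs zs o) y.2 zs J → J.card < p

/-- The state at the beginning of a phase: the current assignment is `flp zs F`. -/
def BaseP (sc : Fin M → Finset V) (vio : Fin M → (V → Bool) → Prop) (r : ℕ)
    (A : Fin S → Set (V → Bool)) (W : Fin S → Finset V) (o : Fin S → V → Bool)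
    (Z : Finset V) (σ zs : V → Bool) (v : Fin S) (F : Finset V) : Prop :=
  flp zs F ∈ A v ∧ (∀ x ∈ F, x ∈ Z → zs x ≠ σ x) ∧ ∃ J, Cov sc r (CW F W) (co F zs o) {v} zs J ∧
    Clo sc r (CW F W) (co F zs o) {v} zs J ∧ ∀ c ∈ J, ¬ vio c (flp zs F)

/-- Bookkeeping for one exposed constraint: `Q` is the set of the places blocked by `c` in this
phase, `F` the set of the flipped places, `X` contains all places flipped in this phase. -/
def Acc (sc : Fin M → Finset V) (vio : Fin M → (V → Bool) → Prop) (l : ℕ) (zs : V → Bool)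
    (c : Fin M) (X F Q : Finset V) : Prop :=
  Q = ∅ ∨ ∃ (x : V) (G : Finset V), x ∈ Q ∧ vio c (flp zs G) ∧
    F ∩ sc c ⊆ insert x (G ∩ sc c) ∧
    Q.card * (2 * l - 1) + (G ∩ sc c).card + 1 ≤ (sc c ∩ X).card + (2 * l - 1)

/-- The state during a phase, after `i` steps, at line `u i`. -/
structure StP (sc : Fin M → Finset V) (vio : Fin M → (V → Bool) → Prop) (r κ l : ℕ)
    (A : Fin S → Set (V → Bool)) (W : Fin S → Finset V) (o : Fin S → V → Bool)
    (m : Fin S → Finset V) (P : Fin S → Finset (Fin S)) (Z : Finset V) (σ zs : V → Bool)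
    (Fs : Finset V) (v0 : Fin S) (i : ℕ)
    (u : ℕ → Fin S) (U : Finset (Fin S)) (F : Finset V) (J : Finset (Fin M)) (Y : Finset V)
    (Q : Fin M → Finset V) : Prop where
  path : (u i, U) ∈ PS P v0 i
  start : u 0 = v0
  step : ∀ j < i, u (j + 1) ∈ P (u j)
  mem : flp zs F ∈ A (u i)
  tow : ∀ x ∈ F, x ∈ Z → zs x ≠ σ x
  cov : Cov sc r (CW Fs W) (co Fs zs o) U zs J
  clo : Clo sc r (CW Fs W) (co Fs zs o) U zs J
  sat : ∀ c ∈ J, ¬ vio c (flp zs F)
  sub : F ⊆ Fs ∪ Y
  YJ : Y ⊆ VJ sc J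
  Yc : Y.card ≤ κ * J.card
  acc : ∀ c ∈ J, Acc sc vio l zs c (Fs ∪ Y) F (Q c)
  keep : ∀ j ≤ i, F \ Y ⊆ m (u j) ∪ J.biUnion Q

end

/-- ADVP: a good assignment which falsifies a line and is far from all sets `E` has a constraint
almost inside its certificate. -/
def T_ADVP : Prop := ∀ (V : Type) [Fintype V] [DecidableEq V]
    (M p p5 r l lam t m B q s b f D S : ℕ) (I : Inst V M l) (F : Finset (Clause V)),
  E5 I.sc p5 r l → E5 I.sc p r lam → 1 ≤ l → 2 * l ≤ r → p ≤ p5 → q ≤ p5 → 1 ≤ t → 1 ≤ m →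
  D ≤ m * t →
  p * r + lam * f + p * (2 * l - 1) ≤ b * (2 * l - 1) →
  s + m * (kap r l * p + b) + kap r l * p + kap r l * q ≤ f →
  (∀ C ∈ F, ∃ c, ∀ z, Falsified C z → I.vio c z) →
  ∀ (Z : Finset V) (σ : V → Bool) (R : PDer F Z σ B q s D S),
  ∀ v, ∀ zs ∈ R.A v, GoodP I.sc r p t f R.wt R.ot R.P zs →
    (∀ z, dis z zs ≤ f → ∀ u, z ∉ R.E u) →
    ∃ c, (I.sc c \ ag (R.wt v) (R.ot v) zs).card < r

/-- CNTP: the number of assignments which are not good. -/
def T_CNTP : Prop := ∀ (V : Type) [Fintype V] [DecidableEq V] (M p e r k t f B S Bl : ℕ)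
    (sc : Fin M → Finset V) (W : Fin S → Finset V) (o : Fin S → V → Bool)
    (P : Fin S → Finset (Fin S)) (Z : Finset (V → Bool)),
  E1 sc p e → (∀ c, (sc c).card = k) → (∀ v, (P v).card ≤ B) → 1 ≤ B →
  (∀ z0 : V → Bool, (Finset.univ.filter (fun zs => dis z0 zs ≤ f)).card ≤ Bl) →
  (∀ zs ∈ Z, ¬ GoodP sc r p t f W o P zs) →
  Z.card ≤ (Bl * 2 ^ f) *
    (S * ((t + 1) * B ^ t) * ((M * ((t + 1) * (B + 1)) * Cr k r ^ 2) ^ p * 2 ^ e))

open Classical in
/-- ABP: the abstract theorem. -/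
def T_ABP : Prop := ∀ a : ℕ, 1 ≤ a → ∃ C0 n0 : ℕ, 1 ≤ C0 ∧
  ∀ n k p p5 e r l lam d : ℕ, n0 ≤ n → 1 ≤ n → 1 ≤ r → 2 ≤ lam → 2 ≤ l → 2 * l ≤ r → p ≤ p5 →
  k ≤ d * r → Cr k (2 * l + 1) * (C0 * n) ≤ 2 ^ k → k ≤ n →
  4 * (2 ^ n * (Cr k (2 * l + 1) * (C0 * n)) ^ p * (n - e) ^ (k * p)) ≤ n ^ (k * p) →
  2 ^ (4 * d + 6) * (k * p5) ≤ l * n → 2 ^ (4 * d + 6) * (k * p) ≤ lam * n →
  4 * ((n + 1) * (p5 + 1)) ≤ 4 ^ r →
  4 * (Cr k (2 * l + 1) * (C0 * n)) ^ 2 ≤ n.choose k →
  ∃ F : Finset (Clause (Fin n)), (∀ C ∈ F, C.card = k) ∧ a * F.card ≤ (a + 1) * (C0 * n * 2 ^ k) ∧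
    (∀ z, (a - 1) * (C0 * n) ≤ a * (F.filter (fun C => Falsified C z)).card) ∧
    ∀ t m B q s b f D S Bl : ℕ, 1 ≤ B → q ≤ p5 → 1 ≤ t → 1 ≤ m → D ≤ m * t →
      p * r + lam * f + p * (2 * l - 1) ≤ b * (2 * l - 1) →
      s + m * (kap r l * p + b) + kap r l * p + kap r l * q ≤ f →
      (∀ z0 : Fin n → Bool, (Finset.univ.filter (fun zs => dis z0 zs ≤ f)).card ≤ Bl) →
      ∀ (Z : Finset (Fin n)) (σ : Fin n → Bool) (R : PDer F Z σ B q s D S) (v : Fin S),
      (Finset.univ.filter (fun z => z ∈ R.A v)).card * 2 ^ k ≤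
        (Bl * 2 ^ f) * (S * ((t + 1) * B ^ t) *
          (((Cr k (2 * l + 1) * (C0 * n)) * ((t + 1) * (B + 1)) * Cr k r ^ 2) ^ p * 2 ^ e)) * 2 ^ k +
        Bl * (∑ u, (R.E u).card) * 2 ^ k +
        (Cr k (2 * l + 1) * (C0 * n)) * Cr k r ^ 2 * 2 ^ n

open Classical in
/-- The main theorem. -/
def T_MAINP : Prop := ∀ ε : ℝ, 0 < ε → ∃ K n0 : ℕ, ∀ n, n0 ≤ n → ∀ w : ℕ,
  K * Nat.log 2 n ≤ w → K * w ≤ n →
  ∃ F : Finset (Clause (Fin n)), (∀ C ∈ F, C.card = w) ∧
    (F.card : ℝ) ≤ (2 : ℝ) ^ ((1 + ε) * w) ∧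
    (∀ z, (1 - ε) * F.card ≤ 2 ^ w * (F.filter (fun C => Falsified C z)).card) ∧
    ∀ B q s D S : ℕ, 2 ≤ B → K * q ≤ n → K * s ≤ n → K * Nat.log 2 B ≤ w →
      K * (D * Nat.log 2 B) ≤ n * w →
      ∀ (Z : Finset (Fin n)) (σ : Fin n → Bool) (R : PDer F Z σ B q s D S),
        (R.cost : ℝ) < (2 : ℝ) ^ ((1 - ε) * n) → ∀ v,
        ((Finset.univ.filter (fun z => z ∈ R.A v)).card : ℝ) ≤ (2 : ℝ) ^ (n - (1 - ε) * w)

end Pool.Agent.H79.UP
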