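import Pool.Agent.H78.UN2.CNT
import Pool.Agent.H79.UP.Defs

/-! The number of assignments which are not good. -/

set_option linter.unusedSectionVars false

namespace Pool.Agent.H79.UP

open Finset Pool.Agent.H78.UN

/-- The number of small sets is at most the size of a ball. -/
theorem small_card {V : Type} [Fintype V] [DecidableEq V] (f : ℕ) :
    (Finset.univ.filter (fun Fs : Finset V => Fs.card ≤ f)).card ≤
      (Finset.univ.filter (fun zs : V → Bool => dis (fun _ => false) zs ≤ f)).card := by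
  classical
  apply Finset.card_le_card_of_injOn (fun Fs x => decide (x ∈ Fs))
  · intro Fs hFs
    have h1 : Fs.card ≤ f := (Finset.mem_filter.1 (Finset.mem_coe.1 hFs)).2
    rw [Finset.mem_coe, Finset.mem_filter]
    refine ⟨Finset.mem_univ _, le_trans (le_of_eq ?_) h1⟩
    unfold dis
    congr 1
    ext x
    simp
  · intro Fs _ Fs' _ h
    ext x
    have := congrFun h x
    simpa using this

theorem cntp (hPSC : T_PSC) (hSC : T_SC) : T_CNTP := by
  classical
  intro V _ _ M p e r k t f B S Bl sc W o P Z0 h1 hk hP hB hBl hbad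
  set G : ℕ := (M * ((t + 1) * (B + 1)) * Cr k r ^ 2) ^ p * 2 ^ e with hG
  set Z : Finset V → Finset V → Finset (Fin S) → Finset (V → Bool) := fun Fs T U =>
    Finset.univ.filter (fun z => (∀ x ∈ Fs, z x = decide (x ∈ T)) ∧
      ∃ J, Cov sc r (CW Fs W) (co Fs (fun x => decide (x ∈ T)) o) U z J ∧ p ≤ J.card) with hZ
  have hZc : ∀ Fs T : Finset V, ∀ v0 : Fin S, ∀ j ≤ t, ∀ y ∈ PS P v0 j,
      (Z Fs T y.2).card ≤ G := by
    intro Fs T v0 j hj y hy
    refine (hSC V M p e r k S sc (CW Fs W) (co Fs (fun x => decide (x ∈ T)) o) y.2 h1 hk _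
      fun z hz => (Finset.mem_filter.1 hz).2.2).trans ?_
    refine Nat.mul_le_mul_right _ (Nat.pow_le_pow_left ?_ _)
    refine Nat.mul_le_mul_right _ (Nat.mul_le_mul_left _ ?_)
    exact ((hPSC S B j P v0 hP).2 y hy).trans (Nat.mul_le_mul_right _ (by omega))
  have hsub : Z0 ⊆ (Finset.univ.filter (fun Fs : Finset V => Fs.card ≤ f)).biUnion
      (fun Fs => Fs.powerset.biUnion (fun T => (Finset.univ : Finset (Fin S)).biUnion
      (fun v0 => (Finset.range (t + 1)).biUnion (fun j => (PS P v0 j).biUnion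
        (fun y => Z Fs T y.2))))) := by
    intro zs hzs
    have h := hbad zs hzs
    unfold GoodP at h
    push Not at h
    obtain ⟨Fs, hFs, v0, j, hj, y, hy, J, hJ, hp⟩ := h
    refine Finset.mem_biUnion.2 ⟨Fs, Finset.mem_filter.2 ⟨Finset.mem_univ _, hFs⟩, ?_⟩
    refine Finset.mem_biUnion.2 ⟨Fs.filter (fun x => zs x = true),
      Finset.mem_powerset.2 (Finset.filter_subset _ _), ?_⟩
    refine Finset.mem_biUnion.2 ⟨v0, Finset.mem_univ _, ?_⟩
    refine Finset.mem_biUnion.2 ⟨j, Finset.mem_range.2 (by omega), ?_⟩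
    refine Finset.mem_biUnion.2 ⟨y, hy, ?_⟩
    have hT : ∀ x ∈ Fs, zs x = decide (x ∈ Fs.filter (fun x => zs x = true)) := by
      intro x hx
      cases h : zs x <;> simp [hx, h]
    refine Finset.mem_filter.2 ⟨Finset.mem_univ _, hT, J, ?_, hp⟩
    have hco : co Fs (fun x => decide (x ∈ Fs.filter (fun x => zs x = true))) o =
        co Fs zs o := by
      funext u x
      unfold co
      by_cases hx : x ∈ Fs
      · rw [if_pos hx, if_pos hx]
        exact (hT x hx).symm
      · rw [if_neg hx, if_neg hx]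
    rw [hco]
    exact hJ
  refine (Finset.card_le_card hsub).trans ?_
  have hj : ∀ Fs T : Finset V, ∀ v0 : Fin S, ∀ j ≤ t, ((PS P v0 j).biUnion
      (fun y => Z Fs T y.2)).card ≤ B ^ t * G := by
    intro Fs T v0 j hj
    refine Finset.card_biUnion_le.trans
      ((Finset.sum_le_sum fun y h => hZc Fs T v0 j hj y h).trans ?_)
    rw [Finset.sum_const, smul_eq_mul]
    exact Nat.mul_le_mul_right _ (((hPSC S B j P v0 hP).1).trans (Nat.pow_le_pow_right hB hj))
  have hv : ∀ Fs T : Finset V, ∀ v0 : Fin S, ((Finset.range (t + 1)).biUnion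
      (fun j => (PS P v0 j).biUnion (fun y => Z Fs T y.2))).card ≤ (t + 1) * (B ^ t * G) := by
    intro Fs T v0
    refine Finset.card_biUnion_le.trans ((Finset.sum_le_sum fun j h => hj Fs T v0 j
      (by rw [Finset.mem_range] at h; omega)).trans ?_)
    rw [Finset.sum_const, smul_eq_mul, Finset.card_range]
  have hFT : ∀ Fs T : Finset V, ((Finset.univ : Finset (Fin S)).biUnion
      (fun v0 => (Finset.range (t + 1)).biUnion (fun j => (PS P v0 j).biUnion
        (fun y => Z Fs T y.2)))).card ≤ S * ((t + 1) * (B ^ t * G)) := by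
    intro Fs T
    refine Finset.card_biUnion_le.trans ((Finset.sum_le_sum fun v0 _ => hv Fs T v0).trans ?_)
    rw [Finset.sum_const, smul_eq_mul, Finset.card_univ, Fintype.card_fin]
  have hF : ∀ Fs ∈ Finset.univ.filter (fun Fs : Finset V => Fs.card ≤ f),
      (Fs.powerset.biUnion (fun T => (Finset.univ : Finset (Fin S)).biUnion
      (fun v0 => (Finset.range (t + 1)).biUnion (fun j => (PS P v0 j).biUnion
        (fun y => Z Fs T y.2))))).card ≤ 2 ^ f * (S * ((t + 1) * (B ^ t * G))) := by
    intro Fs hFs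
    refine Finset.card_biUnion_le.trans ((Finset.sum_le_sum fun T _ => hFT Fs T).trans ?_)
    rw [Finset.sum_const, smul_eq_mul, Finset.card_powerset]
    exact Nat.mul_le_mul_right _ (Nat.pow_le_pow_right (by norm_num) (Finset.mem_filter.1 hFs).2)
  refine Finset.card_biUnion_le.trans ((Finset.sum_le_sum hF).trans ?_)
  rw [Finset.sum_const, smul_eq_mul]
  calc (Finset.univ.filter (fun Fs : Finset V => Fs.card ≤ f)).card *
        (2 ^ f * (S * ((t + 1) * (B ^ t * G))))
      ≤ Bl * (2 ^ f * (S * ((t + 1) * (B ^ t * G)))) :=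
        Nat.mul_le_mul_right _ ((small_card f).trans (hBl _))
    _ = _ := by ring

end Pool.Agent.H79.UP
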