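import Pool.Agent.H79.UP.Play
import Pool.Agent.H79.UP.CNT
import Pool.Agent.H79.UN.XB

/-! Assembly of the abstract theorem. -/

namespace Pool.Agent.H79.UP

open Finset Pool.Agent.H78.UN Pool.Agent.H78.UN2

theorem abp (hADV : T_ADVP) (hCNT : T_CNTP) (hCNE : T_CNE) (hSML : T_SML)
    (hHC : Pool.Agent.H78.UN2.T_HC)
    (hXA : T_XA) (hXC : T_XC) (hXG : T_XG) (hFRM : Pool.Agent.H78.UN2.T_FRM) :
    T_ABP := by
  classical
  intro a ha
  obtain ⟨C0, n0, hC0, hXG⟩ := hXG a ha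
  refine ⟨C0, n0, hC0, ?_⟩
  intro n k p p5 e r l lam d hn0 hn hr hlam2 hl2 hlr hpp hkd hM hkn h1 h2 h2' h3 h4
  have hL : 1 ≤ Cr k (2 * l + 1) := by
    unfold Cr
    rw [Finset.sum_range_succ']
    simp
  set L := Cr k (2 * l + 1) with hLd
  set M := L * (C0 * n) with hMd
  have hpos : 0 < Fintype.card (Fin M → (Fin k ↪ Fin n)) := by
    have : Nonempty (Fin k ↪ Fin n) := ⟨Fin.castLEEmb hkn⟩
    exact Fintype.card_pos
  obtain ⟨τ, hτ1, hτ5, hτ6, hτ3⟩ : ∃ τ : Fin M → (Fin k ↪ Fin n), E1 (scp τ) p e ∧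
      E5 (scp τ) p5 r l ∧ E5 (scp τ) p r lam ∧ Function.Injective (fun c => scp τ c) := by
    by_contra hcon
    push Not at hcon
    have hA := hXA n M k p e h1
    have hB := Pool.Agent.H79.UN.xb_strict hr hl2 hkd hM h2 h3 hpos
    have hB' := Pool.Agent.H79.UN.xb_strict hr hlam2 hkd hM h2'
      ((Nat.mul_le_mul_left _ (Nat.mul_le_mul_left _ (by omega))).trans h3) hpos
    have hC := hXC n M k h4
    have hsub : (Finset.univ : Finset (Fin M → (Fin k ↪ Fin n))) ⊆
        (Finset.univ.filter (fun τ => ¬ E1 (scp τ) p e)) ∪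
          ((Finset.univ.filter (fun τ => ¬ E5 (scp τ) p5 r l)) ∪
          ((Finset.univ.filter (fun τ => ¬ E5 (scp τ) p r lam)) ∪
          (Finset.univ.filter (fun τ => ¬ Function.Injective (fun c => scp τ c))))) := by
      intro τ _
      by_cases h : E1 (scp τ) p e
      · refine Finset.mem_union_right _ ?_
        by_cases h' : E5 (scp τ) p5 r l
        · refine Finset.mem_union_right _ ?_
          by_cases h'' : E5 (scp τ) p r lam
          · exact Finset.mem_union_right _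
              (Finset.mem_filter.2 ⟨Finset.mem_univ _, hcon τ h h' h''⟩)
          · exact Finset.mem_union_left _ (Finset.mem_filter.2 ⟨Finset.mem_univ _, h''⟩)
        · exact Finset.mem_union_left _ (Finset.mem_filter.2 ⟨Finset.mem_univ _, h'⟩)
      · exact Finset.mem_union_left _ (Finset.mem_filter.2 ⟨Finset.mem_univ _, h⟩)
    have hc := (Finset.card_le_card hsub).trans ((Finset.card_union_le _ _).trans
      (Nat.add_le_add_left ((Finset.card_union_le _ _).trans
        (Nat.add_le_add_left (Finset.card_union_le _ _) _)) _))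
    rw [Finset.card_univ] at hc
    omega
  obtain ⟨h, hh⟩ := hHC k (2 * l)
  obtain ⟨b, hb1, hb2⟩ := hXG n hn0 k L hL τ h
  obtain ⟨I, F, hI, hF2, hF1, hF3, hF4⟩ := hFRM n M k L l τ h b hh hτ3
  refine ⟨F, hF2, (Nat.mul_le_mul_left a hF1).trans hb2,
    fun z => (hb1 z).trans (Nat.mul_le_mul_left a (hF3 z)), ?_⟩
  intro t m B q s b f D S Bl hB hq ht hm hD hb hf hBl Zv σ R v
  have hsck : ∀ c, (I.sc c).card = k := by
    intro c
    rw [hI]
    simp [scp]
  have hbad := hADV (Fin n) M p p5 r l lam t m B q s b f D S I F (by rw [hI]; exact hτ5)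
    (by rw [hI]; exact hτ6) (by omega) hlr hpp hq ht hm hD hb hf hF4 Zv σ R
  set Z := Finset.univ.filter (fun z => z ∈ R.A v) with hZ
  set Z1 := Z.filter (fun zs => ¬ GoodP I.sc r p t f R.wt R.ot R.P zs) with hZ1
  set Z2 := Z.filter (fun zs => ∃ z, dis z zs ≤ f ∧ ∃ u, z ∈ R.E u) with hZ2
  set Z3 := Z.filter (fun zs => ∃ c, (I.sc c \ ag (R.wt v) (R.ot v) zs).card < r) with hZ3
  have hsub : Z ⊆ Z1 ∪ (Z2 ∪ Z3) := by
    intro zs hzs
    by_cases g1 : GoodP I.sc r p t f R.wt R.ot R.P zs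
    · refine Finset.mem_union_right _ ?_
      by_cases g2 : ∃ z, dis z zs ≤ f ∧ ∃ u, z ∈ R.E u
      · exact Finset.mem_union_left _ (Finset.mem_filter.2 ⟨hzs, g2⟩)
      · refine Finset.mem_union_right _ (Finset.mem_filter.2 ⟨hzs, ?_⟩)
        push Not at g2
        exact hbad v zs (Finset.mem_filter.1 hzs).2 g1 g2
    · exact Finset.mem_union_left _ (Finset.mem_filter.2 ⟨hzs, g1⟩)
  have c1 := hCNT (Fin n) M p e r k t f B S Bl I.sc R.wt R.ot R.P Z1
    (by rw [hI]; exact hτ1) hsck (fun v => (R.prem v).1) hB hBl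
    (fun zs h => (Finset.mem_filter.1 h).2)
  have c2 := hCNE (Fin n) f S Bl R.E Z2 hBl (fun zs h => (Finset.mem_filter.1 h).2)
  have c3 := hSML (Fin n) M r k I.sc (R.wt v) (R.ot v) Z3 hsck (fun zs h => (Finset.mem_filter.1 h).2)
  rw [Fintype.card_fin] at c3
  have hc := (Finset.card_le_card hsub).trans ((Finset.card_union_le _ _).trans
      (Nat.add_le_add_left (Finset.card_union_le _ _) _))
  calc Z.card * 2 ^ k ≤ (Z1.card + (Z2.card + Z3.card)) * 2 ^ k := Nat.mul_le_mul_right _ hc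
    _ = Z1.card * 2 ^ k + Z2.card * 2 ^ k + Z3.card * 2 ^ k := by ring
    _ ≤ _ := Nat.add_le_add (Nat.add_le_add (Nat.mul_le_mul_right _ c1)
        (Nat.mul_le_mul_right _ c2)) c3

end Pool.Agent.H79.UP
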