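import Pool.Agent.H79.UP.Phase

/-! The play: many phases. -/

set_option linter.unusedSectionVars false

namespace Pool.Agent.H79.UP

open Finset Pool.Agent.H78.UN

section
variable {V : Type} [Fintype V] [DecidableEq V] {M S : ℕ}

/-- The first `j` phases. -/
def Play (W : Fin S → Finset V) (P : Fin S → Finset (Fin S)) (t y b j : ℕ)
    (v : ℕ → Fin S) (F Y Bk : ℕ → Finset V) (u : ℕ → ℕ → Fin S) : Prop :=
  F 0 = ∅ ∧ ∀ i < j, Ph W P t y b (v i) (v (i + 1)) (F i) (F (i + 1)) (Y i) (Bk i) (u i)

/-- The number of flipped places is always small. -/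
theorem play_card {F0 : Finset (Clause V)} {Z : Finset V} {σ : V → Bool} {B q s D : ℕ}
    (R : PDer F0 Z σ B q s D S)
    {t m y b j : ℕ} {v : ℕ → Fin S} {F Y Bk : ℕ → Finset V} {u : ℕ → ℕ → Fin S}
    (ht : 1 ≤ t) (hm : 1 ≤ m) (hD : D ≤ m * t)
    (h : Play R.mm R.P t y b j v F Y Bk u) : (F j).card ≤ s + m * (y + b) := by
  classical
  obtain ⟨h0, hph⟩ := h
  set i0 := j - m with hi0
  set K := (Finset.Ico i0 j).biUnion (fun i => Y i ∪ Bk i) with hK
  have hKc : K.card ≤ m * (y + b) := by
    refine Finset.card_biUnion_le.trans ?_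
    calc ∑ i ∈ Finset.Ico i0 j, (Y i ∪ Bk i).card ≤ ∑ i ∈ Finset.Ico i0 j, (y + b) := by
          refine Finset.sum_le_sum fun i hi => ?_
          rw [Finset.mem_Ico] at hi
          obtain ⟨-, -, -, -, h5, h6, -⟩ := hph i hi.2
          exact (Finset.card_union_le _ _).trans (Nat.add_le_add h5 h6)
      _ = (j - i0) * (y + b) := by rw [Finset.sum_const, smul_eq_mul, Nat.card_Ico]
      _ ≤ m * (y + b) := Nat.mul_le_mul_right _ (by omega)
  set X := F j \ K with hX
  have hFX : (F j).card ≤ X.card + K.card := by
    have h1 : F j ⊆ X ∪ K := by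
      intro x hx
      by_cases hxK : x ∈ K
      · exact Finset.mem_union_right _ hxK
      · exact Finset.mem_union_left _ (Finset.mem_sdiff.2 ⟨hx, hxK⟩)
    exact (Finset.card_le_card h1).trans (Finset.card_union_le _ _)
  have hXK : ∀ i, i0 ≤ i → i < j → ∀ x ∈ X, x ∉ Y i ∧ x ∉ Bk i := by
    intro i h1 h2 x hx
    have h3 := (Finset.mem_sdiff.1 hx).2
    rw [hK, Finset.mem_biUnion] at h3
    push Not at h3
    have h4 := h3 i (Finset.mem_Ico.2 ⟨h1, h2⟩)
    rw [Finset.mem_union, not_or] at h4
    exact h4
  have hXF : ∀ k, k ≤ j - i0 → X ⊆ F (j - k) := by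
    intro k
    induction k with
    | zero => intro _; exact Finset.sdiff_subset
    | succ k ih =>
      intro hk x hx
      have h1 := ih (by omega) hx
      obtain ⟨-, -, -, h4, -⟩ := hph (j - (k + 1)) (by omega)
      have h2 : j - (k + 1) + 1 = j - k := by omega
      rw [h2] at h4
      rcases Finset.mem_union.1 (h4 h1) with h3 | h3
      · exact h3
      · exact absurd h3 (hXK (j - (k + 1)) (by omega) (by omega) x hx).1
  have hXF' : ∀ i, i0 ≤ i → i ≤ j → X ⊆ F i := by
    intro i h1 h2
    have := hXF (j - i) (by omega)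
    rwa [show j - (j - i) = i by omega] at this
  have hXc : X.card ≤ s := by
    rcases Nat.lt_or_ge m j with hj | hj
    · -- the window does not reach the beginning
      have hkeep : ∀ i, i0 ≤ i → i < j → ∀ a ≤ t, X ⊆ R.mm (u i a) := by
        intro i h1 h2 a ha x hx
        obtain ⟨-, -, -, -, -, -, h7⟩ := hph i h2
        have h3 := hXK i h1 h2 x hx
        have h4 := h7 a ha (Finset.mem_sdiff.2 ⟨hXF' (i + 1) (by omega) (by omega) hx, h3.1⟩)
        rcases Finset.mem_union.1 h4 with h5 | h5
        · exact h5
        · exact absurd h5 h3.2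
      set w : ℕ → Fin S := fun n => if n % t = 0 then v (i0 + n / t) else u (i0 + n / t) (n % t)
        with hw
      have hlt : ∀ n, n < m * t → i0 + n / t < j := by
        intro n hn
        have : n / t < m := Nat.div_lt_of_lt_mul (by rw [mul_comm]; exact hn)
        omega
      have hw1 : ∀ n, n < m * t → w n = u (i0 + n / t) (n % t) := by
        intro n hn
        simp only [hw]
        by_cases h1 : n % t = 0
        · rw [if_pos h1, h1]
          exact (hph _ (hlt n hn)).1.symm
        · rw [if_neg h1]
      have hw2 : ∀ n, n < m * t → w (n + 1) = u (i0 + n / t) (n % t + 1) := by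
        intro n hn
        have hmod : n % t < t := Nat.mod_lt _ (by omega)
        have hdm := Nat.div_add_mod n t
        simp only [hw]
        by_cases h1 : n % t + 1 = t
        · have e1 : n + 1 = t * (n / t + 1) := by
            rw [Nat.mul_add, mul_one]
            omega
          have e2 : (n + 1) % t = 0 := by rw [e1]; exact Nat.mul_mod_right _ _
          have e3 : (n + 1) / t = n / t + 1 := by
            rw [e1]
            exact Nat.mul_div_cancel_left _ (by omega)
          rw [if_pos e2, e3, h1, (hph _ (hlt n hn)).2.1]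
          rfl
        · have e1 : n + 1 = (n % t + 1) + t * (n / t) := by omega
          have e2 : (n + 1) % t = n % t + 1 := by
            rw [e1, Nat.add_mul_mod_self_left]
            exact Nat.mod_eq_of_lt (by omega)
          have e3 : (n + 1) / t = n / t := by
            rw [e1, Nat.add_mul_div_left _ _ (by omega)]
            rw [Nat.div_eq_of_lt (by omega), zero_add]
          rw [e2, e3, if_neg (by omega)]
      refine R.pers w ?_ X ?_
      · intro i hi
        have hi' : i < m * t := lt_of_lt_of_le hi hD
        rw [hw1 i hi', hw2 i hi']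
        exact (hph _ (hlt i hi')).2.2.1 _ (Nat.mod_lt _ (by omega))
      · intro i hi
        rcases Nat.eq_zero_or_pos i with h1 | h1
        · subst h1
          have h2 : 0 < m * t := Nat.mul_pos hm ht
          rw [hw1 0 h2]
          exact hkeep _ (Nat.le_add_right _ _) (hlt 0 h2) _ (by rw [Nat.zero_mod]; exact Nat.zero_le _)
        · obtain ⟨k, rfl⟩ : ∃ k, i = k + 1 := ⟨i - 1, by omega⟩
          have hk : k < m * t := by omega
          rw [hw2 k hk]
          exact hkeep _ (Nat.le_add_right _ _) (hlt k hk) _ (Nat.mod_lt _ (by omega))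
    · -- the window reaches the beginning
      have h1 : X ⊆ F 0 := hXF' 0 (by omega) (Nat.zero_le _)
      rw [h0] at h1
      rw [Finset.subset_empty.1 h1, Finset.card_empty]
      exact Nat.zero_le _
  omega

/-- Lines on a path decrease. -/
theorem path_lt {F0 : Finset (Clause V)} {Z : Finset V} {σ : V → Bool} {B q s D : ℕ}
    (R : PDer F0 Z σ B q s D S) {t : ℕ}
    {u : ℕ → Fin S} (h : ∀ j < t, u (j + 1) ∈ R.P (u j)) : ∀ j ≤ t, (u j).val + j ≤ (u 0).val := by
  intro j
  induction j with
  | zero => intro _; exact le_rfl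
  | succ j ih =>
    intro hj
    have h1 := ih (by omega)
    have h2 : (u (j + 1)).val < (u j).val := (R.prem (u j)).2 _ (h j (by omega))
    omega

/-- ADVP. -/
theorem advp (hFIX : T_FIX) : T_ADVP := by
  classical
  intro V _ _ M p p5 r l lam t m B q s b f D S I F0 h5' h5 hl hlr hp5 hq5 ht hm hD hb hf hF0 Z σ
    R v zs hzs hG hE
  by_contra hcon
  push Not at hcon
  have hB0 : BaseP I.sc I.vio r R.A R.wt R.ot Z σ zs v ∅ := by
    have hflp : flp zs ∅ = zs := by
      funext x
      simp [flp]
    refine ⟨by rw [hflp]; exact hzs, fun x hx => absurd hx (Finset.notMem_empty _), ∅, Cov.nil,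
      ?_, fun c hc => absurd hc (Finset.notMem_empty _)⟩
    intro u hu c _
    rw [Finset.mem_singleton.1 hu, ag_CW, VJ_empty, Finset.union_empty, Finset.union_empty]
    exact hcon c
  have key : ∀ j : ℕ, ∃ (v' : ℕ → Fin S) (F Y Bk : ℕ → Finset V) (u : ℕ → ℕ → Fin S),
      v' 0 = v ∧ Play R.mm R.P t (kap r l * p) b j v' F Y Bk u ∧
      BaseP I.sc I.vio r R.A R.wt R.ot Z σ zs (v' j) (F j) := by
    intro j
    induction j with
    | zero =>
      exact ⟨fun _ => v, fun _ => ∅, fun _ => ∅, fun _ => ∅, fun _ _ => v, rfl,
        ⟨rfl, fun i hi => absurd hi (Nat.not_lt_zero _)⟩, hB0⟩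
    | succ j ih =>
      obtain ⟨v', F, Y, Bk, u, hv, hpl, hB⟩ := ih
      have hc := play_card R ht hm hD hpl
      obtain ⟨v1, F1, Y1, Bk1, u1, hph, hB1⟩ := phase_end hFIX I h5' h5 hl hlr hp5 hq5 hb hF0 R
        hG hE hB (by omega)
      refine ⟨Function.update v' (j + 1) v1, Function.update F (j + 1) F1,
        Function.update Y j Y1, Function.update Bk j Bk1, Function.update u j u1, ?_, ⟨?_, ?_⟩, ?_⟩
      · rw [Function.update_of_ne (by omega)]
        exact hv
      · rw [Function.update_of_ne (by omega)]
        exact hpl.1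
      · intro i hi
        rcases Nat.lt_or_eq_of_le (Nat.lt_succ_iff.1 hi) with hi' | hi'
        · rw [Function.update_of_ne (by omega), Function.update_of_ne (by omega),
            Function.update_of_ne (by omega), Function.update_of_ne (by omega),
            Function.update_of_ne (by omega), Function.update_of_ne (by omega),
            Function.update_of_ne (by omega)]
          exact hpl.2 i hi'
        · subst hi'
          rw [Function.update_self, Function.update_self, Function.update_self,
            Function.update_self, Function.update_self, Function.update_of_ne (by omega),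
            Function.update_of_ne (by omega)]
          exact hph
      · rw [Function.update_self, Function.update_self]
        exact hB1
  obtain ⟨v', F, Y, Bk, u, hv, hpl, -⟩ := key S
  have hdec : ∀ i ≤ S, (v' i).val + i ≤ (v' 0).val := by
    intro i
    induction i with
    | zero => intro _; exact le_rfl
    | succ i ih =>
      intro hi
      have h1 := ih (by omega)
      obtain ⟨h2, h3, h4, -⟩ := hpl.2 i (by omega)
      have h6 := path_lt R h4 t le_rfl
      rw [h2, h3] at h6
      omega
  have h1 := hdec S le_rfl
  have h2 := (v' 0).isLt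
  omega

end

end Pool.Agent.H79.UP
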