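import Pool.Agent.H78.UN.Steps
import Pool.Agent.H79.UP.Defs

/-! Bookkeeping of blocked places. -/

set_option linter.unusedSectionVars false

namespace Pool.Agent.H79.UP

open Finset Pool.Agent.H78.UN

section
variable {V : Type} [DecidableEq V] {M l : ℕ}

theorem flp_apply_eq {z : V → Bool} {F G : Finset V} {x : V} (h : x ∈ F ↔ x ∈ G) :
    flp z F x = flp z G x := by
  unfold flp
  by_cases hx : x ∈ F
  · rw [if_pos hx, if_pos (h.1 hx)]
  · rw [if_neg hx, if_neg (fun hg => hx (h.2 hg))]

theorem flp_apply_ne {z : V → Bool} {F G : Finset V} {x : V} (h1 : x ∈ F) (h2 : x ∉ G) :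
    flp z F x ≠ flp z G x := by
  simp [flp, h1, h2]

theorem flp_ne_iff {z : V → Bool} {F G : Finset V} {x : V} :
    flp z F x ≠ flp z G x ↔ ¬ (x ∈ F ↔ x ∈ G) := by
  by_cases h1 : x ∈ F <;> by_cases h2 : x ∈ G <;> simp [flp, h1, h2]

theorem flp_flp {z : V → Bool} {F Y : Finset V} (h : Disjoint Y F) :
    flp (flp z F) Y = flp z (F ∪ Y) := by
  funext x
  by_cases h1 : x ∈ Y
  · have h2 : x ∉ F := fun h3 => Finset.disjoint_left.1 h h1 h3
    simp [flp, h1, h2]
  · by_cases h2 : x ∈ F <;> simp [flp, h1, h2]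

/-- A blocked place lies in the scope. -/
theorem blocked_mem (I : Inst V M l) {c : Fin M} {zs : V → Bool} {F : Finset V} {x : V}
    (hs : ¬ I.vio c (flp zs F)) (h : I.vio c (flp zs (F.erase x))) : x ∈ I.sc c := by
  by_contra hx
  refine hs (I.loc c _ _ ?_ h)
  intro y hy
  have hne : y ≠ x := fun e => hx (e ▸ hy)
  exact flp_apply_eq (by simp [hne])

/-- At most one place is blocked by a constraint. -/
theorem blocked_unique (I : Inst V M l) (hl : 1 ≤ l) {c : Fin M} {zs : V → Bool}
    {F : Finset V} {x y : V} (hs : ¬ I.vio c (flp zs F)) (hx : x ∈ F)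
    (h1 : I.vio c (flp zs (F.erase x))) (h2 : I.vio c (flp zs (F.erase y))) : x = y := by
  by_contra hne
  have hxs := blocked_mem I hs h1
  have h3 := I.far c _ _ h1 h2 ⟨x, hxs, by
    rw [flp_ne_iff]
    simp [hne, hx]⟩
  have h4 : ((I.sc c).filter (fun a => flp zs (F.erase x) a ≠ flp zs (F.erase y) a)).card ≤
      ({x, y} : Finset V).card := by
    refine Finset.card_le_card ?_
    intro a ha
    have ha2 := (Finset.mem_filter.1 ha).2
    rw [flp_ne_iff] at ha2
    simp only [Finset.mem_erase] at ha2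
    rw [Finset.mem_insert, Finset.mem_singleton]
    by_contra h5
    rw [not_or] at h5
    exact ha2 (by simp [h5.1, h5.2])
  have h5 : ({x, y} : Finset V).card ≤ 2 := Finset.card_le_two
  omega

theorem Acc.mono {sc : Fin M → Finset V} {vio : Fin M → (V → Bool) → Prop} {zs : V → Bool}
    {c : Fin M} {X X' F F' Q : Finset V} (h : Acc sc vio l zs c X F Q)
    (hF : F' ∩ sc c ⊆ F ∩ sc c) (hX : X ⊆ X') : Acc sc vio l zs c X' F' Q := by
  rcases h with h | ⟨x, G, h1, h2, h3, h4⟩
  · exact Or.inl h
  · refine Or.inr ⟨x, G, h1, h2, hF.trans h3, h4.trans ?_⟩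
    exact Nat.add_le_add_right (Finset.card_le_card
      (Finset.inter_subset_inter (Finset.Subset.refl _) hX)) _

theorem Acc.card {sc : Fin M → Finset V} {vio : Fin M → (V → Bool) → Prop} {zs : V → Bool}
    {c : Fin M} {X F Q : Finset V} (h : Acc sc vio l zs c X F Q) :
    Q.card * (2 * l - 1) ≤ (sc c ∩ X).card + (2 * l - 1) := by
  rcases h with h | ⟨x, G, -, -, -, h4⟩
  · simp [h]
  · omega

/-- One more blocked place. -/
theorem Acc.ins (I : Inst V M l) (hl : 1 ≤ l) {zs : V → Bool} {c : Fin M}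
    {X F Q : Finset V} {x : V} (h : Acc I.sc I.vio l zs c X F Q) (hFX : F ⊆ X)
    (hs : ¬ I.vio c (flp zs F)) (hx : x ∈ F) (hv : I.vio c (flp zs (F.erase x))) :
    Acc I.sc I.vio l zs c X F (insert x Q) := by
  have hxs := blocked_mem I hs hv
  have hF : F ∩ I.sc c ⊆ insert x (F.erase x ∩ I.sc c) := by
    intro y hy
    rw [Finset.mem_inter] at hy
    rw [Finset.mem_insert, Finset.mem_inter, Finset.mem_erase]
    by_cases hyx : y = x
    · exact Or.inl hyx
    · exact Or.inr ⟨⟨hyx, hy.1⟩, hy.2⟩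
  have hcard : (F.erase x ∩ I.sc c).card + 1 ≤ (F ∩ I.sc c).card := by
    have h1 : x ∉ F.erase x ∩ I.sc c := by simp
    rw [← Finset.card_insert_of_notMem h1]
    refine Finset.card_le_card ?_
    intro y hy
    rcases Finset.mem_insert.1 hy with h2 | h2
    · rw [h2]
      exact Finset.mem_inter.2 ⟨hx, hxs⟩
    · rw [Finset.mem_inter] at h2 ⊢
      exact ⟨Finset.mem_of_mem_erase h2.1, h2.2⟩
  have hFXc : (F ∩ I.sc c).card ≤ (I.sc c ∩ X).card := by
    refine Finset.card_le_card ?_
    intro y hy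
    rw [Finset.mem_inter] at hy ⊢
    exact ⟨hy.2, hFX hy.1⟩
  rcases h with h | ⟨x0, G, h1, h2, h3, h4⟩
  · subst h
    refine Or.inr ⟨x, F.erase x, Finset.mem_insert_self _ _, hv, hF, ?_⟩
    rw [Finset.card_insert_of_notMem (Finset.notMem_empty _), Finset.card_empty]
    omega
  · by_cases hxQ : x ∈ Q
    · rw [Finset.insert_eq_self.2 hxQ]
      exact Or.inr ⟨x0, G, h1, h2, h3, h4⟩
    · have hne : x ≠ x0 := fun e => hxQ (e ▸ h1)
      have hxG : x ∈ G := by
        have := h3 (Finset.mem_inter.2 ⟨hx, hxs⟩)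
        rcases Finset.mem_insert.1 this with h5 | h5
        · exact absurd h5 hne
        · exact (Finset.mem_inter.1 h5).1
      have hfar := I.far c _ _ h2 hv ⟨x, hxs, by
        rw [flp_ne_iff]
        simp [hxG]⟩
      -- the difference set
      have hsub : (I.sc c).filter (fun a => flp zs G a ≠ flp zs (F.erase x) a) ⊆
          insert x0 ((G ∩ I.sc c) \ (F.erase x ∩ I.sc c)) := by
        intro a ha
        rw [Finset.mem_filter, flp_ne_iff] at ha
        obtain ⟨ha1, ha2⟩ := ha
        rw [Finset.mem_insert, Finset.mem_sdiff, Finset.mem_inter, Finset.mem_inter]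
        by_cases haG : a ∈ G
        · right
          refine ⟨⟨haG, ha1⟩, fun h5 => ha2 ?_⟩
          simp only [haG, h5.1]
        · left
          have haF : a ∈ F.erase x := by
            by_contra h5
            exact ha2 (by simp only [haG, h5])
          have := h3 (Finset.mem_inter.2 ⟨Finset.mem_of_mem_erase haF, ha1⟩)
          rcases Finset.mem_insert.1 this with h5 | h5
          · exact h5
          · exact absurd (Finset.mem_inter.1 h5).1 haG
      have hc1 := (Finset.card_le_card hsub).trans (Finset.card_insert_le _ _)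
      -- size of the new pattern
      have hsub2 : F.erase x ∩ I.sc c ⊆
          insert x0 ((G ∩ I.sc c) ∩ (F.erase x ∩ I.sc c)) := by
        intro a ha
        rw [Finset.mem_inter] at ha
        have := h3 (Finset.mem_inter.2 ⟨Finset.mem_of_mem_erase ha.1, ha.2⟩)
        rcases Finset.mem_insert.1 this with h5 | h5
        · exact Finset.mem_insert.2 (Or.inl h5)
        · exact Finset.mem_insert.2 (Or.inr (Finset.mem_inter.2 ⟨h5, Finset.mem_inter.2 ha⟩))
      have hc2 := (Finset.card_le_card hsub2).trans (Finset.card_insert_le _ _)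
      have hc3 := Finset.card_sdiff_add_card_inter (G ∩ I.sc c) (F.erase x ∩ I.sc c)
      refine Or.inr ⟨x, F.erase x, Finset.mem_insert_self _ _, hv, hF, ?_⟩
      rw [Finset.card_insert_of_notMem hxQ]
      have h6 : (Q.card + 1) * (2 * l - 1) = Q.card * (2 * l - 1) + (2 * l - 1) := by ring
      omega

open Classical in
/-- The places of `F` outside `Wa` which are blocked by `c`. -/
noncomputable def Nb (vio : Fin M → (V → Bool) → Prop) (zs : V → Bool) (F Wa : Finset V)
    (c : Fin M) : Finset V :=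
  (F \ Wa).filter (fun x => vio c (flp zs (F.erase x)))

/-- All blocked places are taken into account. -/
theorem Acc.step (I : Inst V M l) (hl : 1 ≤ l) {zs : V → Bool} {c : Fin M}
    {X F Q : Finset V} (Wa : Finset V) (h : Acc I.sc I.vio l zs c X F Q) (hFX : F ⊆ X)
    (hs : ¬ I.vio c (flp zs F)) : Acc I.sc I.vio l zs c X F (Q ∪ Nb I.vio zs F Wa c) := by
  classical
  rcases Finset.eq_empty_or_nonempty (Nb I.vio zs F Wa c) with h0 | ⟨x, hx⟩
  · rw [h0, Finset.union_empty]
    exact h
  · have hx' := Finset.mem_filter.1 hx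
    have hxF := (Finset.mem_sdiff.1 hx'.1).1
    have h1 : Nb I.vio zs F Wa c = {x} := by
      ext y
      rw [Finset.mem_singleton]
      constructor
      · intro hy
        have hy' := Finset.mem_filter.1 hy
        exact (blocked_unique I hl hs hxF hx'.2 hy'.2).symm
      · rintro rfl
        exact hx
    rw [h1, Finset.union_comm, ← Finset.insert_eq]
    exact h.ins I hl hFX hs hxF hx'.2

/-- Resetting: all flipped places outside `Wa` can be reset, except for blocked places. -/
theorem reset (vio : Fin M → (V → Bool) → Prop) (zs : V → Bool) (F Wa : Finset V)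
    (J : Finset (Fin M)) (hs : ∀ c ∈ J, ¬ vio c (flp zs F)) :
    ∃ F' ⊆ F, F ∩ Wa ⊆ F' ∧ (∀ c ∈ J, ¬ vio c (flp zs F')) ∧
      F' ⊆ Wa ∪ J.biUnion (Nb vio zs F' Wa) := by
  classical
  obtain ⟨F', hF', hmin⟩ := Finset.exists_min_image
    (F.powerset.filter (fun G => F ∩ Wa ⊆ G ∧ ∀ c ∈ J, ¬ vio c (flp zs G))) Finset.card
    ⟨F, by
      rw [Finset.mem_filter, Finset.mem_powerset]
      exact ⟨Finset.Subset.refl _, Finset.inter_subset_left, hs⟩⟩
  rw [Finset.mem_filter, Finset.mem_powerset] at hF'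
  obtain ⟨h1, h2, h3⟩ := hF'
  refine ⟨F', h1, h2, h3, ?_⟩
  intro x hx
  rw [Finset.mem_union, Finset.mem_biUnion]
  by_cases hxW : x ∈ Wa
  · exact Or.inl hxW
  · right
    by_contra hcon
    push Not at hcon
    have h4 : F'.erase x ∈ F.powerset.filter
        (fun G => F ∩ Wa ⊆ G ∧ ∀ c ∈ J, ¬ vio c (flp zs G)) := by
      rw [Finset.mem_filter, Finset.mem_powerset]
      refine ⟨(Finset.erase_subset _ _).trans h1, ?_, ?_⟩
      · intro y hy
        refine Finset.mem_erase.2 ⟨?_, h2 hy⟩
        rintro rfl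
        exact hxW (Finset.mem_inter.1 hy).2
      · intro c hc hv
        exact hcon c hc (Finset.mem_filter.2 ⟨Finset.mem_sdiff.2 ⟨hx, hxW⟩, hv⟩)
    have h5 := hmin _ h4
    have h6 := Finset.card_erase_lt_of_mem hx
    omega

end

end Pool.Agent.H79.UP
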