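import Pool.Agent.H79.UP.Steps

/-! A whole phase. -/

set_option linter.unusedSectionVars false

namespace Pool.Agent.H79.UP

open Finset Pool.Agent.H78.UN

section
variable {V : Type} [Fintype V] [DecidableEq V] {M S : ℕ}

theorem phase (hFIX : T_FIX) {p p5 r l t B q s f D : ℕ} (I : Inst V M l)
    {F0 : Finset (Clause V)} (h5 : E5 I.sc p5 r l) (hl : 1 ≤ l) (hlr : 2 * l ≤ r)
    (hp5 : p ≤ p5) (hq5 : q ≤ p5)
    (hF0 : ∀ C ∈ F0, ∃ c, ∀ z, Falsified C z → I.vio c z) {Z : Finset V} {σ : V → Bool}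
    (R : PDer F0 Z σ B q s D S)
    {zs : V → Bool} (hG : GoodP I.sc r p t f R.wt R.ot R.P zs)
    (hE : ∀ z, dis z zs ≤ f → ∀ u, z ∉ R.E u)
    {Fs : Finset V} {v0 : Fin S} (hB : BaseP I.sc I.vio r R.A R.wt R.ot Z σ zs v0 Fs)
    (hf : Fs.card + kap r l * p + kap r l * q ≤ f) : ∀ i ≤ t,
    ∃ (u : ℕ → Fin S) (U : Finset (Fin S)) (F : Finset V) (J : Finset (Fin M)) (Y : Finset V)
      (Q : Fin M → Finset V),
      StP I.sc I.vio r (kap r l) l R.A R.wt R.ot R.mm R.P Z σ zs Fs v0 i u U F J Y Q := by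
  have hFs : Fs.card ≤ f := by omega
  intro i
  induction i with
  | zero =>
    intro _
    exact startP hFIX I hp5 h5 hl hlr R.lines hG hFs hB
  | succ i ih =>
    intro hi
    obtain ⟨u, U, F, J, Y, Q, hS⟩ := ih (by omega)
    have hJ : J.card < p := hG Fs hFs v0 i (by omega) _ hS.path J hS.cov
    have hFc : F.card ≤ Fs.card + kap r l * p := by
      refine (Finset.card_le_card hS.sub).trans ((Finset.card_union_le _ _).trans ?_)
      exact Nat.add_le_add_left (hS.Yc.trans (Nat.mul_le_mul_left _ hJ.le)) _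
    have hfar : ∀ Y0 : Finset V, Y0.card ≤ kap r l * q → flp zs (F ∪ Y0) ∉ R.E (u i) := by
      intro Y0 hY0
      refine hE _ ((dis_flp _ _).trans ((Finset.card_union_le _ _).trans ?_)) _
      omega
    rcases R.rule (u i) with ⟨Qc, hQ1, hQ2, hQ3⟩ | hP
    · exact (leafP hFIX I h5 hl hlr hq5 R.lines hF0 hS hQ1 hQ2 hfar hQ3).elim
    · obtain ⟨a, ha, hza⟩ := hP _ hS.mem (by simpa using hfar ∅ (by simp))
      exact stepP hFIX I hp5 h5 hl hlr R.lines hG hFs hi hS ha hza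

/-- The number of blocked places. -/
theorem blk_card {p r l lam f b : ℕ} {I : Inst V M l} (h5 : E5 I.sc p r lam) (hl : 1 ≤ l)
    {zs : V → Bool} {X F : Finset V} {J : Finset (Fin M)} {Q : Fin M → Finset V}
    (hJ : J.card ≤ p) (hX : X.card ≤ f)
    (hacc : ∀ c ∈ J, Acc I.sc I.vio l zs c X F (Q c))
    (hb : p * r + lam * f + p * (2 * l - 1) ≤ b * (2 * l - 1)) : (J.biUnion Q).card ≤ b := by
  classical
  have h1 : (J.biUnion Q).card * (2 * l - 1) ≤ p * r + lam * f + p * (2 * l - 1) := by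
    have h2 : ∑ c ∈ J, (I.sc c ∩ X).card ≤ p * r + lam * f := by
      rw [← Finset.sum_filter_add_sum_filter_not J (fun c => r ≤ (I.sc c ∩ X).card)]
      have h3 := h5 (J.filter (fun c => r ≤ (I.sc c ∩ X).card)) X
        ((Finset.card_filter_le _ _).trans hJ) (fun c hc => (Finset.mem_filter.1 hc).2)
      have h4 : ∑ c ∈ J.filter (fun c => ¬ r ≤ (I.sc c ∩ X).card), (I.sc c ∩ X).card ≤ p * r := by
        calc ∑ c ∈ J.filter (fun c => ¬ r ≤ (I.sc c ∩ X).card), (I.sc c ∩ X).card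
            ≤ ∑ c ∈ J.filter (fun c => ¬ r ≤ (I.sc c ∩ X).card), r :=
              Finset.sum_le_sum fun c hc => (not_le.1 (Finset.mem_filter.1 hc).2).le
          _ = (J.filter (fun c => ¬ r ≤ (I.sc c ∩ X).card)).card * r := by
              rw [Finset.sum_const, smul_eq_mul]
          _ ≤ p * r := Nat.mul_le_mul_right _ ((Finset.card_filter_le _ _).trans hJ)
      have h6 : lam * X.card ≤ lam * f := Nat.mul_le_mul_left _ hX
      omega
    calc (J.biUnion Q).card * (2 * l - 1) ≤ (∑ c ∈ J, (Q c).card) * (2 * l - 1) :=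
          Nat.mul_le_mul_right _ Finset.card_biUnion_le
      _ = ∑ c ∈ J, (Q c).card * (2 * l - 1) := Finset.sum_mul _ _ _
      _ ≤ ∑ c ∈ J, ((I.sc c ∩ X).card + (2 * l - 1)) :=
          Finset.sum_le_sum fun c hc => (hacc c hc).card
      _ = (∑ c ∈ J, (I.sc c ∩ X).card) + J.card * (2 * l - 1) := by
          rw [Finset.sum_add_distrib, Finset.sum_const, smul_eq_mul]
      _ ≤ p * r + lam * f + p * (2 * l - 1) :=
          Nat.add_le_add h2 (Nat.mul_le_mul_right _ hJ)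
  exact Nat.le_of_mul_le_mul_right (h1.trans hb) (by omega)

/-- The result of a phase. -/
def Ph (W : Fin S → Finset V) (P : Fin S → Finset (Fin S))
    (t y b : ℕ) (v v' : Fin S) (F F' Y Bk : Finset V) (u : ℕ → Fin S) : Prop :=
  u 0 = v ∧ u t = v' ∧ (∀ j < t, u (j + 1) ∈ P (u j)) ∧ F' ⊆ F ∪ Y ∧ Y.card ≤ y ∧
    Bk.card ≤ b ∧ ∀ j ≤ t, F' \ Y ⊆ W (u j) ∪ Bk

theorem phase_end (hFIX : T_FIX) {p p5 r l lam t B q s f b D : ℕ} (I : Inst V M l)
    {F0 : Finset (Clause V)} (h5 : E5 I.sc p5 r l) (h5' : E5 I.sc p r lam) (hl : 1 ≤ l)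
    (hlr : 2 * l ≤ r) (hp5 : p ≤ p5) (hq5 : q ≤ p5)
    (hb : p * r + lam * f + p * (2 * l - 1) ≤ b * (2 * l - 1))
    (hF0 : ∀ C ∈ F0, ∃ c, ∀ z, Falsified C z → I.vio c z) {Z : Finset V} {σ : V → Bool}
    (R : PDer F0 Z σ B q s D S)
    {zs : V → Bool} (hG : GoodP I.sc r p t f R.wt R.ot R.P zs)
    (hE : ∀ z, dis z zs ≤ f → ∀ u, z ∉ R.E u)
    {Fs : Finset V} {v0 : Fin S} (hB : BaseP I.sc I.vio r R.A R.wt R.ot Z σ zs v0 Fs)
    (hf : Fs.card + kap r l * p + kap r l * q ≤ f) :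
    ∃ (v' : Fin S) (F' Y Bk : Finset V) (u : ℕ → Fin S),
      Ph R.mm R.P t (kap r l * p) b v0 v' Fs F' Y Bk u ∧
      BaseP I.sc I.vio r R.A R.wt R.ot Z σ zs v' F' := by
  obtain ⟨u, U, F, J, Y, Q, hS⟩ := phase hFIX I h5 hl hlr hp5 hq5 hF0 R hG hE hB hf t le_rfl
  have hFs : Fs.card ≤ f := by omega
  have hJ : J.card < p := hG Fs hFs v0 t le_rfl _ hS.path J hS.cov
  have hY : Y.card ≤ kap r l * p := hS.Yc.trans (Nat.mul_le_mul_left _ hJ.le)
  refine ⟨u t, F, Y, J.biUnion Q, u, ⟨hS.start, rfl, hS.step, hS.sub, hY, ?_, hS.keep⟩, baseP hS⟩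
  refine blk_card h5' hl hJ.le (X := Fs ∪ Y) ?_ hS.acc hb
  refine (Finset.card_union_le _ _).trans ?_
  omega

end

end Pool.Agent.H79.UP
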